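import Mathlib

/-!
Definitions used in the statement: redundant and primitive stable representations of a free group
of finite rank in SL(2,R), acting on the hyperbolic plane (upper half-plane model).
-/

namespace Pool.Agent.MP_28624d_gt

open scoped UpperHalfPlane

/-- The group SL(2,R). -/
abbrev G : Type := Matrix.SpecialLinearGroup (Fin 2) ℝ

/-- The free group of rank n with its fixed basis. -/
abbrev F (n : ℕ) : Type := FreeGroup (Fin n)

/-- A is a free factor of H: H is the internal free product of A and some subgroup B. -/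
def IsFreeFactor {H : Type} [Group H] (A : Subgroup H) : Prop :=
  ∃ B : Subgroup H, Function.Bijective (Monoid.Coprod.lift A.subtype B.subtype)

/-- Some proper free factor has dense image. -/
def Redundant {n : ℕ} (ρ : F n →* G) : Prop :=
  ∃ A : Subgroup (F n), IsFreeFactor A ∧ A ≠ ⊤ ∧ Dense (ρ '' (A : Set (F n)))

/-- g belongs to some free basis S of the free group. -/
def IsPrimitive {n : ℕ} (g : F n) : Prop :=
  ∃ S : Set (F n), g ∈ S ∧ Function.Bijective (FreeGroup.lift (fun s : S => (s : F n)))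

/-- u lists the vertices of a bi-infinite geodesic line of the Cayley tree that g translates
along itself. -/
def IsAxis {n : ℕ} (g : F n) (u : ℤ → F n) : Prop :=
  (∀ j k : ℤ, FreeGroup.norm ((u j)⁻¹ * u k) = (j - k).natAbs) ∧
    ∃ m : ℤ, m ≠ 0 ∧ ∀ k : ℤ, g * u k = u (k + m)

/-- f passes through p k at time k and runs along the geodesic segment from p k to p (k+1)
at constant speed on the interval from k to k+1. -/
def IsGeodExt (p : ℤ → ℍ) (f : ℝ → ℍ) : Prop :=
  (∀ k : ℤ, f k = p k) ∧
    ∀ (k : ℤ) (r s : ℝ), r ∈ Set.Icc (0 : ℝ) 1 → s ∈ Set.Icc (0 : ℝ) 1 →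
      dist (f (k + r)) (f (k + s)) = |r - s| * dist (p k) (p (k + 1))

/-- f is a K-quasi-geodesic. -/
def IsQG (K : ℝ) (f : ℝ → ℍ) : Prop :=
  ∀ s t : ℝ, |s - t| / K - K ≤ dist (f s) (f t) ∧ dist (f s) (f t) ≤ K * |s - t| + K

/-- Primitive stability: the piecewise geodesic extension of an orbit map sends the axes of all
primitive elements to K-quasi-geodesics, for one K. -/
def PrimStable {n : ℕ} (ρ : F n →* G) : Prop :=
  ∃ K : ℝ, 0 < K ∧ ∃ x : ℍ, ∀ g : F n, IsPrimitive g → ∀ u : ℤ → F n, IsAxis g u →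
    ∀ f : ℝ → ℍ, IsGeodExt (fun k => ρ (u k) • x) f → IsQG K f

/-- An orbit map is a quasi-isometric embedding of the free group with its word metric
(Schottky representation). -/
def QIEmb {n : ℕ} (ρ : F n →* G) : Prop :=
  ∃ K : ℝ, 0 < K ∧ ∃ x : ℍ, ∀ g h : F n,
    (FreeGroup.norm (g⁻¹ * h) : ℝ) / K - K ≤ dist (ρ g • x) (ρ h • x) ∧
      dist (ρ g • x) (ρ h • x) ≤ K * (FreeGroup.norm (g⁻¹ * h) : ℝ) + K

end Pool.Agent.MP_28624d_gt
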